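import Pool.Agent.OddZetaV.F7.Data
import Pool.Agent.OddZetaV.F7.Cells

/-! Kernel check of a part of the table.  Seat: helper57. -/

namespace Pool.Agent.OddZetaV.F7

open Pool.Agent.OddZetaG Pool.Agent.OddZetaG.Tab

set_option maxRecDepth 100000 in
theorem ok_T1b0 : T1b0.all (cellP F) = true := by decide +kernel

set_option maxRecDepth 100000 in
theorem ok_T1b1 : T1b1.all (cellP F) = true := by decide +kernel

set_option maxRecDepth 100000 in
theorem ok_T1b2 : T1b2.all (cellP F) = true := by decide +kernel

set_option maxRecDepth 100000 in
theorem ok_T1b3 : T1b3.all (cellP F) = true := by decide +kernel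

set_option maxRecDepth 100000 in
theorem ok_T1b4 : T1b4.all (cellP F) = true := by decide +kernel

set_option maxRecDepth 100000 in
theorem ok_T1b5 : T1b5.all (cellP F) = true := by decide +kernel

set_option maxRecDepth 100000 in
theorem ok_T1b6 : T1b6.all (cellP F) = true := by decide +kernel

set_option maxRecDepth 100000 in
theorem ok_T1b7 : T1b7.all (cellP F) = true := by decide +kernel

end Pool.Agent.OddZetaV.F7
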