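import Pool.Agent.OddZetaV.F7.Data
import Pool.Agent.OddZetaV.F7.Cells

/-! Kernel check of a part of the table.  Seat: helper57. -/

namespace Pool.Agent.OddZetaV.F7

open Pool.Agent.OddZetaG Pool.Agent.OddZetaG.Tab

set_option maxRecDepth 100000 in
theorem ok_T1b8 : T1b8.all (cellP F) = true := by decide +kernel

set_option maxRecDepth 100000 in
theorem ok_T1b9 : T1b9.all (cellP F) = true := by decide +kernel

set_option maxRecDepth 100000 in
theorem ok_T1b10 : T1b10.all (cellP F) = true := by decide +kernel

set_option maxRecDepth 100000 in
theorem ok_T1b11 : T1b11.all (cellP F) = true := by decide +kernel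

set_option maxRecDepth 100000 in
theorem ok_T1b12 : T1b12.all (cellP F) = true := by decide +kernel

set_option maxRecDepth 100000 in
theorem ok_T1b13 : T1b13.all (cellP F) = true := by decide +kernel

set_option maxRecDepth 100000 in
theorem ok_T1b14 : T1b14.all (cellP F) = true := by decide +kernel

set_option maxRecDepth 100000 in
theorem ok_T1b15 : T1b15.all (cellP F) = true := by decide +kernel

end Pool.Agent.OddZetaV.F7
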