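import Pool.Agent.OddZetaV.F7.Data
import Pool.Agent.OddZetaV.F7.Cells

/-! Kernel check of a part of the table.  Seat: helper57. -/

namespace Pool.Agent.OddZetaV.F7

open Pool.Agent.OddZetaG Pool.Agent.OddZetaG.Tab

set_option maxRecDepth 100000 in
theorem ok_T1b24 : T1b24.all (cellP F) = true := by decide +kernel

set_option maxRecDepth 100000 in
theorem ok_T1b25 : T1b25.all (cellP F) = true := by decide +kernel

set_option maxRecDepth 100000 in
theorem ok_T1b26 : T1b26.all (cellP F) = true := by decide +kernel

set_option maxRecDepth 100000 in
theorem ok_T1b27 : T1b27.all (cellP F) = true := by decide +kernel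

set_option maxRecDepth 100000 in
theorem ok_T1b28 : T1b28.all (cellP F) = true := by decide +kernel

set_option maxRecDepth 100000 in
theorem ok_T1b29 : T1b29.all (cellP F) = true := by decide +kernel

set_option maxRecDepth 100000 in
theorem ok_T1b30 : T1b30.all (cellP F) = true := by decide +kernel

set_option maxRecDepth 100000 in
theorem ok_T1b31 : T1b31.all (cellP F) = true := by decide +kernel

end Pool.Agent.OddZetaV.F7
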