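import Pool.Agent.OddZetaV.F7.Data
import Pool.Agent.OddZetaV.F7.Cells

/-! Kernel check of a part of the table.  Seat: helper57. -/

namespace Pool.Agent.OddZetaV.F7

open Pool.Agent.OddZetaG Pool.Agent.OddZetaG.Tab

set_option maxRecDepth 100000 in
theorem ok_T1b48 : T1b48.all (cellP F) = true := by decide +kernel

set_option maxRecDepth 100000 in
theorem ok_T1b49 : T1b49.all (cellP F) = true := by decide +kernel

set_option maxRecDepth 100000 in
theorem ok_T1b50 : T1b50.all (cellP F) = true := by decide +kernel

set_option maxRecDepth 100000 in
theorem ok_T1b51 : T1b51.all (cellP F) = true := by decide +kernel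

set_option maxRecDepth 100000 in
theorem ok_T1b52 : T1b52.all (cellP F) = true := by decide +kernel

set_option maxRecDepth 100000 in
theorem ok_T1b53 : T1b53.all (cellP F) = true := by decide +kernel

set_option maxRecDepth 100000 in
theorem ok_T1b54 : T1b54.all (cellP F) = true := by decide +kernel

set_option maxRecDepth 100000 in
theorem ok_T1b55 : T1b55.all (cellP F) = true := by decide +kernel

end Pool.Agent.OddZetaV.F7
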