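import Pool.Agent.OddZetaG.Fam

/-!
The family `F7`: base with `31` pole blocks and `7` zero blocks, increment with `20` pole blocks and
`4` zero blocks, `C = 89`.  Seats: helper7 (data), helper57.
-/

namespace Pool.Agent.OddZetaV.F7

open Pool.Agent.OddZetaG

/-- the family -/
def F : Fam where
  C := 89
  k0 := 6
  k1 := 4
  A0 := 24
  A1 := 16
  s := 24
  lo := 28
  P0 := [24, 25, 25, 26, 26, 27, 27, 28, 29, 29, 29, 30, 30, 31, 31, 31, 32, 32, 33, 33, 33, 34,
    34, 35, 35, 36, 36, 37, 37, 38, 39]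
  M0 := [0, 2, 4, 6, 8, 10, 11]
  P1 := [25, 26, 27, 28, 29, 29, 30, 30, 31, 32, 32, 33, 34, 34, 35, 36, 36, 37, 38, 39]
  M1 := [1, 5, 7, 11]
  UP := [24, 25, 26, 27, 28, 29, 30, 31, 32, 33, 34, 35, 36, 37, 38, 39]
  UL := [24, 25, 26, 27, 28, 29, 30, 31, 32, 33, 34, 35, 36, 37, 38, 39, 0, 1, 2, 4, 5, 6, 7, 8,
    10, 11]
  OU := [0, 1, 2, 4, 5, 6, 7, 8, 10, 11, 24, 25, 26, 27, 28, 29, 30, 31, 32, 33, 34, 35, 36, 37,
    38, 39, 50, 51, 52, 53, 54, 55, 56, 57, 58, 59, 60, 61, 62, 63, 64, 65, 78, 79, 81, 82,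
    83, 84, 85, 87, 88, 89]

theorem F_OK : F.OK where
  k0even := by decide
  k1even := by decide
  k0pos := by decide
  lM0 := by decide
  lM1 := by decide
  lP0 := by decide
  lP1 := by decide
  A0even := by decide
  A1even := by decide
  A4 := by decide
  Pge := by decide
  Mlt := by decide
  lt := by decide
  PU := by decide
  AU := by decide
  OUz := by decide
  OUm := by decide
  smem := by decide
  lomem := by decide
  lo0 := by decide
  lo1 := by decide
  deg0 := by decide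
  deg1 := by decide

end Pool.Agent.OddZetaV.F7
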