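import Pool.Agent.OddZetaV.F7.CheckA
import Pool.Agent.OddZetaV.F7.Num
import Pool.Agent.OddZetaV.F7.Check0
import Pool.Agent.OddZetaV.F7.Check1
import Pool.Agent.OddZetaV.F7.Check2
import Pool.Agent.OddZetaV.F7.Check3
import Pool.Agent.OddZetaV.F7.Check4
import Pool.Agent.OddZetaV.F7.Check5
import Pool.Agent.OddZetaV.F7.Check6
import Pool.Agent.OddZetaV.F7.Check7

/-! The table theorem for the family `F7`.  Seat: helper57. -/

open Finset

namespace Pool.Agent.OddZetaV.F7

open Pool.Agent.OddZetaG Pool.Agent.OddZetaG.Tab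

theorem ok_T1b : T1b.all (cellP F) = true := by
  unfold T1b
  simp only [List.all_append, ok_T1b0, ok_T1b1, ok_T1b2, ok_T1b3, ok_T1b4, ok_T1b5, ok_T1b6, ok_T1b7, ok_T1b8, ok_T1b9,
    ok_T1b10, ok_T1b11, ok_T1b12, ok_T1b13, ok_T1b14, ok_T1b15, ok_T1b16, ok_T1b17, ok_T1b18,
    ok_T1b19, ok_T1b20, ok_T1b21, ok_T1b22, ok_T1b23, ok_T1b24, ok_T1b25, ok_T1b26, ok_T1b27,
    ok_T1b28, ok_T1b29, ok_T1b30, ok_T1b31, ok_T1b32, ok_T1b33, ok_T1b34, ok_T1b35, ok_T1b36,
    ok_T1b37, ok_T1b38, ok_T1b39, ok_T1b40, ok_T1b41, ok_T1b42, ok_T1b43, ok_T1b44, ok_T1b45,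
    ok_T1b46, ok_T1b47, ok_T1b48, ok_T1b49, ok_T1b50, ok_T1b51, ok_T1b52, ok_T1b53, ok_T1b54,
    ok_T1b55, ok_T1b56, ok_T1b57, ok_T1b58, ok_T1b59,
    Bool.and_self]

/-- the table theorem for all `F.D j` -/
theorem table (j : ℕ) : ∃ d : ℕ → ℕ → ℕ, ∃ N : ℕ, ∀ n ≥ N, n.Prime →
      (∀ p : ℕ, p.Prime → p ≠ n → (F.D j).C * n < p ^ 2 → p ≤ (F.D j).C * n →
        ∀ l ∈ poles (F.D j) n, bnd (F.D j) n l p ≤ d n p) ∧
      ∑ p ∈ (Finset.Icc 1 ((F.D j).C * n)).filter
          (fun p => p.Prime ∧ (F.D j).C * n < p ^ 2 ∧ p ≠ n),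
        (d n p : ℝ) * Real.log p ≤ (1040 + j * 661 : ℝ) * n := by
  refine sum_bound_fam F_OK (u := 1) (v := 27) (Ym := 2) 15 (by decide) (by decide) (by decide)
    ok_T0 ok_T1a ok_T1b chain_T0 chain_T1b chain_T1 pos_T0 pos_T1b 450500000794 267000000475 565381797682 377405158006 Bf0 Bf1
    num0_T0 num1_T0 num0_T1b num1_T1b ?_ ?_ ?_ ?_ j
  · intro i hi
    interval_cases i
    · exact num0_1
    · exact num0_2
    · exact num0_3
    · exact num0_4
    · exact num0_5
    · exact num0_6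
    · exact num0_7
    · exact num0_8
    · exact num0_9
    · exact num0_10
    · exact num0_11
    · exact num0_12
    · exact num0_13
    · exact num0_14
    · exact num0_15
  · intro i hi
    interval_cases i
    · exact num1_1
    · exact num1_2
    · exact num1_3
    · exact num1_4
    · exact num1_5
    · exact num1_6
    · exact num1_7
    · exact num1_8
    · exact num1_9
    · exact num1_10
    · exact num1_11
    · exact num1_12
    · exact num1_13
    · exact num1_14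
    · exact num1_15
  · have h : (450500000794 : ℕ) + 565381797682 + ∑ i ∈ Finset.range 15, Bf0 i = 1036797006750 := by simp [Finset.sum_range_succ, Bf0]
    rw [h, show F.P0.length = 31 by decide, show F.k0 = 6 by decide]
    norm_num
  · have h : (267000000475 : ℕ) + 377405158006 + ∑ i ∈ Finset.range 15, Bf1 i = 658651038056 := by simp [Finset.sum_range_succ, Bf1]
    rw [h, show F.P1.length = 20 by decide, show F.k1 = 4 by decide]
    norm_num

end Pool.Agent.OddZetaV.F7
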